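import Pool.Agent.Helper71.PY.Goals

/-!
Packet PY-NN (making `nx`, `ny` isotropic) for MP_293fae_al.
-/

set_option autoImplicit false

namespace Pool.Agent.Helper3.PY

open Pool.Agent.Helper71.PY

theorem key {R N : Type} [CommRing R] [AddCommGroup N] [Module R N] (x y : R)
    (B : N →ₗ[R] N →ₗ[R] R) (hs : ∀ v w, B v w = B w v) (P : Submodule R N) (hL : Lg B P)
    (z : P →ₗ[R] R) (mx my : N) (hx : ∀ p : P, B mx p = x * z p)
    (hy : ∀ p : P, B my p = y * z p) :
    y ^ 2 * B mx mx - 2 * x * y * B mx my + x ^ 2 * B my my = 0 := by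
  have hp : y • mx - x • my ∈ P := by
    rw [hL]
    intro w hw
    have h1 := hx ⟨w, hw⟩
    have h2 := hy ⟨w, hw⟩
    simp only [map_sub, map_smul, LinearMap.sub_apply, LinearMap.smul_apply, smul_eq_mul]
    simp only at h1 h2
    rw [h1, h2]
    ring
  have h0 := (hL _).1 hp _ hp
  simp only [map_sub, map_smul, LinearMap.sub_apply, LinearMap.smul_apply, smul_eq_mul] at h0
  rw [hs my mx] at h0
  linear_combination h0

theorem nn : G_NN := by
  intro R _ _ _ x y hreg h2 N _ _ B hs P hL z p1 nx ny hz hx hy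
  have hx0 : x ≠ 0 := hreg.prx.ne_zero
  have hy0 : y ≠ 0 := fun h => hreg.ndvd (h ▸ dvd_zero x)
  have hk := key x y B hs P hL z nx ny hx hy
  have hda : x ∣ B nx nx := by
    have h1 : x ∣ y ^ 2 * B nx nx := ⟨2 * y * B nx ny - x * B ny ny, by linear_combination hk⟩
    rcases hreg.prx.dvd_or_dvd h1 with h | h
    · exact absurd (hreg.prx.dvd_of_dvd_pow h) hreg.ndvd
    · exact h
  obtain ⟨α, hα⟩ := hda
  have hk2 : x * B ny ny = y * (2 * B nx ny - y * α) := by
    apply mul_left_cancel₀ hx0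
    rw [hα] at hk
    linear_combination hk
  have hde : x ∣ 2 * B nx ny - y * α := by
    have h1 : x ∣ y * (2 * B nx ny - y * α) := ⟨B ny ny, hk2.symm⟩
    rcases hreg.prx.dvd_or_dvd h1 with h | h
    · exact absurd h hreg.ndvd
    · exact h
  obtain ⟨γ, hγ⟩ := hde
  have hc : B ny ny = y * γ := by
    apply mul_left_cancel₀ hx0
    rw [hk2, hγ]
    ring
  obtain ⟨t, ht⟩ := h2.exists_right_inv
  have hp1 : ∀ p : P, B p1 p = 0 := fun p => (hL _).1 p1.2 _ p.2
  have hx1 : ∀ p : P, B (nx - (t * α) • (p1 : N)) p = x * z p := by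
    intro p
    simp only [map_sub, map_smul, LinearMap.sub_apply, LinearMap.smul_apply, smul_eq_mul]
    rw [hx p, hp1 p]
    ring
  have hy1 : ∀ p : P, B (ny - (t * γ) • (p1 : N)) p = y * z p := by
    intro p
    simp only [map_sub, map_smul, LinearMap.sub_apply, LinearMap.smul_apply, smul_eq_mul]
    rw [hy p, hp1 p]
    ring
  have hxx : B (nx - (t * α) • (p1 : N)) (nx - (t * α) • (p1 : N)) = 0 := by
    simp only [map_sub, map_smul, LinearMap.sub_apply, LinearMap.smul_apply, smul_eq_mul]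
    rw [hs p1 nx, hx p1, hp1 p1, hz, hα]
    linear_combination (-(α * x)) * ht
  have hyy : B (ny - (t * γ) • (p1 : N)) (ny - (t * γ) • (p1 : N)) = 0 := by
    simp only [map_sub, map_smul, LinearMap.sub_apply, LinearMap.smul_apply, smul_eq_mul]
    rw [hs p1 ny, hy p1, hp1 p1, hz, hc]
    linear_combination (-(γ * y)) * ht
  have hk3 := key x y B hs P hL z _ _ hx1 hy1
  rw [hxx, hyy] at hk3
  refine ⟨nx - (t * α) • (p1 : N), ny - (t * γ) • (p1 : N), hz, hx1, hy1, hxx, hyy, ?_⟩
  have h3 : (2 * x * y) * B (nx - (t * α) • (p1 : N)) (ny - (t * γ) • (p1 : N)) = 0 := by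
    linear_combination (-1 : R) * hk3
  have h4 : (2 * x * y : R) ≠ 0 := mul_ne_zero (mul_ne_zero h2.ne_zero hx0) hy0
  exact (mul_eq_zero.1 h3).resolve_left h4

end Pool.Agent.Helper3.PY
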